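import Pool.Agent.N355.TF.Glue
import Pool.Agent.N355.TF.Homeo
import Pool.Agent.N355.TF.Corner
import Pool.Agent.N355.TF.Cut
import Pool.Agent.N355.TF.Union
import Pool.Agent.N355.TF.SepOO
import Pool.Agent.N355.TF.SepNew
import Pool.Agent.N355.TF.Rank
import Pool.Agent.N355.TF.Col5

/-!
MP_c9efbf_co, Q1 (negative answer, in a stronger form): for every `n ≥ 15` there is a toroidal
polyhedron with exactly `n` faces whose faces cannot be coloured properly with four colours, but
can be coloured with five. (For `n = 15` this polyhedron is in the starting file S11528; here a corner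
of it, far from the tunnel, is replaced by a fan of `m` triangles with a common apex over a convex
chain, which keeps all adjacencies of the 15 faces.)
-/

set_option autoImplicit false

namespace Pool.Agent.Results.MP_c9efbf_co.EveryNumberOfFaces

open Set

/-- Euclidean 3-space -/
abbrev E3 := EuclideanSpace ℝ (Fin 3)

/-- The face number `i`: the convex hull of the finite set `S i` of points. -/
def face {n : ℕ} (S : Fin n → Finset E3) (i : Fin n) : Set E3 := convexHull ℝ (S i : Set E3)

/-- Two faces share an edge: their intersection has dimension one. -/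
def ShareEdge {n : ℕ} (S : Fin n → Finset E3) (i j : Fin n) : Prop :=
  Module.finrank ℝ (vectorSpan ℝ (face S i ∩ face S j)) = 1

/-- The convex hulls of the finite sets `S i`, `i < n`, are the faces of a toroidal polyhedron with
`n` faces: every face is a convex polygon (it has dimension two); two distinct faces meet in an
exposed face of both which has dimension at most one (the empty set, a common vertex or a common
edge); faces which share an edge are not coplanar; the union is homeomorphic to the torus. -/
structure IsToroidalPolyhedron {n : ℕ} (S : Fin n → Finset E3) : Prop where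
  polygon : ∀ i, Module.finrank ℝ (vectorSpan ℝ (face S i)) = 2
  meet : ∀ i j, i ≠ j → IsExposed ℝ (face S i) (face S i ∩ face S j) ∧
    IsExposed ℝ (face S j) (face S i ∩ face S j) ∧
    Module.finrank ℝ (vectorSpan ℝ (face S i ∩ face S j)) ≤ 1
  bent : ∀ i j, i ≠ j → ShareEdge S i j → ¬ Coplanar ℝ (face S i ∪ face S j)
  torus : Nonempty (↥(⋃ i, face S i) ≃ₜ (AddCircle (1 : ℝ) × AddCircle (1 : ℝ)))

/-- The faces have a proper colouring with `k` colours: faces which share an edge get different
colours. -/
def Colourable {n : ℕ} (S : Fin n → Finset E3) (k : ℕ) : Prop :=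
  ∃ c : Fin n → Fin k, ∀ i j, i ≠ j → ShareEdge S i j → c i ≠ c j

open Pool.Agent.N355.TF in
theorem family (m : ℕ) (hm : 0 < m) :
    IsToroidalPolyhedron (fun i : Fin (15 + m) => SF m i) ∧
      ¬ Colourable (fun i : Fin (15 + m) => SF m i) 4 ∧
      Colourable (fun i : Fin (15 + m) => SF m i) 5 := by
  have hsep : ∀ i j : Fin (15 + m), i ≠ j → Sep m i j := fun i j hij =>
    sep_all sepOO sepON sepNN hm i.2 j.2 (fun h => hij (Fin.ext h))
  have hone : ∀ i j : Fin (15 + m), i ≠ j →
      Module.finrank ℝ (vectorSpan ℝ (CF m i ∩ CF m j)) ≤ 1 := fun i j hij =>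
    inter_le_one comAll hm i.2 j.2 (fun h => hij (Fin.ext h)) (hsep i j hij)
  refine ⟨⟨fun i => rank2 m i hm i.2, fun i j hij => ⟨sep_exposed (hsep i j hij), ?_, hone i j hij⟩,
    fun i j hij _ => not_cop rank2 plane hm i.2 j.2 (fun h => hij (Fin.ext h)), ?_⟩, ?_, ?_⟩
  · have h := sep_exposed (hsep j i hij.symm)
    rw [Set.inter_comm] at h
    exact h
  · exact homeo m _ (compact_union m) (union_desc corner (cut corner) m hm)
  · rintro ⟨c, hc⟩
    apply Pool.Agent.Helper167.Torus.no_colouring
      (fun k => if hk : k < 15 then (c ⟨k, by omega⟩).1 else 0)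
    · intro i
      split_ifs with hi
      · exact (c ⟨i, by omega⟩).2
      · norm_num
    · intro i j hi hj hij ha
      simp only [dif_pos hi, dif_pos hj]
      have hne : (⟨i, by omega⟩ : Fin (15 + m)) ≠ ⟨j, by omega⟩ := fun h => hij (Fin.mk.inj h)
      obtain ⟨a, b, hab, h1, h2, h3, h4⟩ := adjOO m i j hm hi hj hij ha
      have h := hc _ _ hne (inter_eq_one (hone _ _ hne) hab h1 h2 h3 h4)
      exact fun he => h (Fin.ext he)
  · obtain ⟨c, hc⟩ := col5 m hm
    refine ⟨fun i => c i, fun i j hij h => ?_⟩
    obtain ⟨a, b, hab, h1, h2, h3, h4⟩ := two_common (hsep i j hij) h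
    exact hc i j a b i.2 j.2 (fun h => hij (Fin.ext h)) hab h1 h2 h3 h4

open Pool.Agent.Helper167.Torus in
theorem base : IsToroidalPolyhedron (fun i : Fin 15 => PS (fv i)) ∧
    ¬ Colourable (fun i : Fin 15 => PS (fv i)) 4 ∧ Colourable (fun i : Fin 15 => PS (fv i)) 5 := by
  refine ⟨⟨fun i => face_finrank i.1 i.2, fun i j hij => ?_, fun i j hij _ =>
    not_coplanar i.1 j.1 i.2 j.2 (fun h => hij (Fin.ext h)), homeo_UU⟩, ?_, ?_⟩
  · have hne : i.1 ≠ j.1 := fun h => hij (Fin.ext h)
    refine ⟨face_exposed i.1 j.1 i.2 j.2 hne, ?_, ?_⟩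
    · have h := face_exposed j.1 i.1 j.2 i.2 hne.symm
      rw [Set.inter_comm] at h
      exact h
    · by_cases h2 : (com i.1 j.1).length = 2
      · exact ((inter_finrank i.1 j.1 i.2 j.2 hne).1 h2).le
      · exact ((inter_finrank i.1 j.1 i.2 j.2 hne).2 h2).le.trans zero_le_one
  · rintro ⟨c, hc⟩
    apply no_colouring (fun k => if hk : k < 15 then (c ⟨k, hk⟩).1 else 0)
    · intro i
      split_ifs with hi
      · exact (c ⟨i, hi⟩).2
      · norm_num
    · intro i j hi hj hij ha
      simp only [dif_pos hi, dif_pos hj]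
      have ha2 : (com i j).length = 2 := by simpa [adj] using ha
      have h := hc ⟨i, hi⟩ ⟨j, hj⟩ (fun h => hij (Fin.mk.inj h))
        ((inter_finrank i j hi hj hij).1 ha2)
      exact fun he => h (Fin.ext he)
  · obtain ⟨c, hc⟩ := Pool.Agent.N355.TF.col5_base
    refine ⟨c, fun i j hij h => hc i j hij ?_⟩
    by_contra hne
    have h0 := (inter_finrank i.1 j.1 i.2 j.2 (fun h => hij (Fin.ext h))).2 hne
    exact zero_ne_one (h0.symm.trans h)

/-- For every `n ≥ 15` there is a toroidal polyhedron with exactly `n` faces whose faces have a proper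
colouring with five colours but none with four. -/
theorem result : ∀ n : ℕ, 15 ≤ n → ∃ S : Fin n → Finset E3,
    IsToroidalPolyhedron S ∧ ¬ Colourable S 4 ∧ Colourable S 5 := by
  intro n hn
  obtain ⟨m, rfl⟩ := Nat.exists_eq_add_of_le hn
  rcases Nat.eq_zero_or_pos m with rfl | hm
  · exact ⟨_, base⟩
  · exact ⟨_, family m hm⟩

end Pool.Agent.Results.MP_c9efbf_co.EveryNumberOfFaces
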